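import Pool.Agent.Y670.RP.AtP
import Pool.Agent.Y125.RP.MPL
import Pool.Agent.Y363.RP.LINX

set_option autoImplicit false

/-!
# Prime-free neighbourhoods of Rankin's length around the values of polynomials at primes

Let `F` be a finite set of nonconstant polynomials with integer coefficients, none of them of the form
`x + b`.  There is `c > 0` such that for all large `X` at least `X ^ c` primes `p ≤ X` have the property
that no prime lies within `c log X log₂ X log₄ X / (log₃ X)²` of any of the numbers `f(p)`, `f ∈ F`.

Proof (`Pool.Agent.Y670.RP`). Put `y = δ log X`.  The prime `p` lies in the class of `1` modulo the primes up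
to Rankin's limit `z` and in the class of a fixed `ν` modulo the other primes up to `y`, one exceptional
prime left out; the surviving shifts `u` are `O(y / log y)` in number, with a small constant.  For each
survivor the polynomial `f + u`, if it is not a monomial, has nonzero roots modulo more than `y` primes
between `y` and a fixed power of `y` (helper125), so that every survivor can be given a prime of its own.
The modulus is a small power of `X`, and the class contains at least `X ^ c` primes up to `X` by a
theorem of Linnik's type for squarefree moduli not divisible by one exceptional prime (helper363).  The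
monomials among the `f + u` are not prime at primes.
-/

namespace Pool.Agent.Results.MP_7b323f_nt.AllPolynomialsAtPrimes

open Finset

/-- the length in Rankin's theorem on large gaps between primes -/
noncomputable def R (X : ℝ) : ℝ :=
  Real.log X * Real.log (Real.log X) * Real.log (Real.log (Real.log (Real.log X))) /
    (Real.log (Real.log (Real.log X))) ^ 2

open scoped Classical in
theorem result (F : Finset (Polynomial ℤ))
    (hF : ∀ f ∈ F, f.natDegree ≠ 0 ∧ ¬ ∃ b : ℤ, f = Polynomial.X + Polynomial.C b) :
    ∃ c : ℝ, 0 < c ∧ ∃ X₀ : ℝ, ∀ X : ℝ, X₀ ≤ X →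
      X ^ c ≤ (((Icc 1 ⌊X⌋₊).filter (fun p : ℕ => p.Prime ∧ ∀ f ∈ F, ∀ q : ℕ, q.Prime →
        c * R X < |(q : ℝ) - ((f.eval (p : ℤ) : ℤ) : ℝ)|)).card : ℝ) := by
  obtain ⟨c, hc, X₀, h⟩ := Pool.Agent.Y670.RP.primesF Pool.Agent.Y125.RP.mpl Pool.Agent.Y363.RP.linx F
    (fun f hf => ⟨Nat.one_le_iff_ne_zero.mpr (hF f hf).1, fun h => (hF f hf).2
      (Pool.Agent.Y670.RP.monic_linear h.1 h.2)⟩)
  exact ⟨c, hc, X₀, fun X hX => (h X hX).2⟩

end Pool.Agent.Results.MP_7b323f_nt.AllPolynomialsAtPrimes
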