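import Pool.Agent.Y565.RG.MultiF

set_option autoImplicit false

/-! # Prime gaps of record length around `α x₁ ⋯ x_k + ∑ F_i`, each `F_i` an arbitrary function of
the variables other than `x_i`, along arbitrary dense intersections of cylinders

Let `k ≥ 2` and let `f(Z) = log Z (log₂ Z)² log₄ Z / (log₃ Z)²`, the order of the largest known prime
gaps.  A cylinder in direction `i` is a set of points of `[1, Z] ^ k` whose definition does not
involve the coordinate `x_i`; let `E` be an intersection of cylinders in the directions `1, …, k`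
(`CylInt`): for `k = 2` a product `A × B`, for `k = 3` the set of the triangles of an arbitrary
tripartite graph.  Let `F_i`, `i = 1, …, k`, be arbitrary real functions, `F_i` of the variables
other than `x_i`.  If `|E| ≥ Z ^ (k - δ)` and `v(x) = α x₁ ⋯ x_k + ∑ F_i(x) ≥ Z ^ ε` on `E`, then at
least `|E| Z ^ (-ε)` points `x` of `E` have the property that no prime lies within `κ f(Z)` of
`v(x)`.  This holds for arbitrarily large `Z` if `α` is irrational (`δ` depends only on `k`, `κ` only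
on `k` and `ε`) and for all large `Z` if moreover `α` is not a Liouville number (`δ`, `κ` depend on
`α` as well).

For example `v(x) = α (x₁ + ⋯ + x_k) ^ k` with the `x_i` in arbitrary sets of `Z ^ (1 - δ / k)`
integers, or `α a b c + f(a, b) + g(b, c) + h(c, a)` with arbitrary functions `f`, `g`, `h`.

Proof: an inverse theorem (`inverse`) for the sums of `e(θ x₁ ⋯ x_k)` with coefficients
`u_1(x) ⋯ u_k(x)`, `|u_i| ≤ 1`, `u_i` independent of `x_i`: if such a sum is at least
`N ^ (k - δ')`, then `θ` is within `2 ^ (k - 2) N ^ (-3/2) / q` of a fraction with a denominator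
`q ≤ N ^ δ` (induction on `k` by the inequality of Cauchy and Schwarz and the pigeonhole principle,
beginning with the large sieve for `k = 2`).  The frequencies `h α / q` of the sieve are not of this
kind at the scales in question; the covering sieve of the starting library, in the form
`TH915.PW.crit_scaled`, does the rest. -/

namespace Pool.Agent.Results.MP_7b323f_nt.CylinderIntersections

/-- `f` does not depend on the variable number `i` -/
def IndepOf {k : ℕ} {β : Type} (i : Fin k) (f : (Fin k → ℕ) → β) : Prop :=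
  ∀ x y : Fin k → ℕ, (∀ j, j ≠ i → x j = y j) → f x = f y

/-- `E` is an intersection of cylinders in the box `[1, Z] ^ k`, one for each direction -/
def CylInt {k : ℕ} (Z : ℝ) (E : Finset (Fin k → ℕ)) : Prop :=
  ∃ W : Fin k → (Fin k → ℕ) → Prop, (∀ i, IndepOf i (W i)) ∧
    ∀ x, x ∈ E ↔ (∀ i, 1 ≤ x i ∧ (x i : ℝ) ≤ Z) ∧ ∀ i, W i x

/-- For every intersection `E` of cylinders in `[1, Z] ^ k` with `|E| ≥ Z ^ (k - δ)` and all real
functions `F i`, `F i` of the variables other than `x i`, with `α ∏ x j + ∑ F i x ≥ Z ^ ε` on `E`: at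
least `|E| Z ^ (-ε)` points of `E` have no prime within `κ f(Z)` of `α ∏ x j + ∑ F i x`. -/
def Good (k : ℕ) (α δ ε κ Z : ℝ) : Prop :=
  ∀ (E : Finset (Fin k → ℕ)) (F : Fin k → (Fin k → ℕ) → ℝ), CylInt Z E →
    (∀ i, IndepOf i (F i)) → Z ^ ((k : ℝ) - δ) ≤ E.card →
    (∀ x ∈ E, Z ^ ε ≤ α * ∏ j, (x j : ℝ) + ∑ i, F i x) →
    ∃ G : Finset (Fin k → ℕ), G ⊆ E ∧ (E.card : ℝ) * Z ^ (-ε) ≤ G.card ∧
      ∀ x ∈ G, ∀ q : ℕ, q.Prime →
        κ * (Real.log Z * (Real.log (Real.log Z)) ^ 2 *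
          Real.log (Real.log (Real.log (Real.log Z))) / (Real.log (Real.log (Real.log Z))) ^ 2) <
            |(q : ℝ) - (α * ∏ j, (x j : ℝ) + ∑ i, F i x)|

theorem result (k : ℕ) (hk : 2 ≤ k) :
    (∃ δ : ℝ, 0 < δ ∧ ∀ ε : ℝ, 0 < ε → ε ≤ 1 → ∃ κ : ℝ, 0 < κ ∧ ∀ α : ℝ, Irrational α →
      ∀ Z₁ : ℝ, ∃ Z : ℝ, Z₁ ≤ Z ∧ Good k α δ ε κ Z) ∧
    (∀ α : ℝ, Irrational α → ¬ Liouville α → ∃ δ : ℝ, 0 < δ ∧ ∀ ε : ℝ, 0 < ε → ε ≤ 1 →
      ∃ κ : ℝ, 0 < κ ∧ ∃ Z₀ : ℝ, ∀ Z : ℝ, Z₀ ≤ Z → Good k α δ ε κ Z) :=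
  Pool.Agent.Y565.RG.multi_both k hk

end Pool.Agent.Results.MP_7b323f_nt.CylinderIntersections
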