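import Mathlib
import Pool.Agent.Y837.SV.Three2

set_option autoImplicit false

/-!
# Record prime gaps around the sums of three polynomials in disjoint sets of variables

Let `f(Z) = log Z (log₂ Z)² log₄ Z / (log₃ Z)²` (iterated natural logarithms), the size of the longest gaps
between consecutive primes that are known to occur up to `Z`.

Let `A(x), B(y), C(z)` be ANY nonconstant polynomials with integer coefficients in disjoint sets of variables
(each in any number of variables).  There is `c > 0` such that for all large `Z` every box of side `Z` contains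
an integer point `(x, y, z)` such that every integer at distance at most `c f(Z)` from `A(x) + B(y) + C(z)` has a
prime factor `p ≤ Z ^ (1/10)`.  For example `x³ + y³ + z³`, `x ^ k + y ^ k + z ^ k`, `x y² + z⁵ + w (w + 1)`.

Method.  The record covering sieve (helper256 and team; colour dependent form by helper378) for points of `ℤ^d`
(`Pool.Agent.Y837.SV`): modulo the medium primes the point is `0`, modulo the small primes `p > B` it is any point
at which the value is not the value at `0`, and the surviving shifts are killed by primes `> (log Z)²` all at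
once.  This needs that `A(x) + B(y) + C(z) = r` has `p ^ (d-1) (1 + O(p ^ (-δ)))` solutions modulo `p`, uniformly
in ALL `r`; this is proved with the second moments of the exponential sums of `A` and `B` (Schwartz and Zippel)
and Weyl's inequality for `C`, in one variable by differencing, in several variables by slicing.  With two
summands the corresponding statement is false (`x² - y²` and `r = 0`).
-/

namespace Pool.Agent.Results.MP_7b323f_nt.SumsOfThreePolynomials

open MvPolynomial

/-- The record scale `f(Z) = log Z (log₂ Z)² log₄ Z / (log₃ Z)²` (iterated natural logarithms). -/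
noncomputable def f (Z : ℝ) : ℝ :=
  Real.log Z * (Real.log (Real.log Z)) ^ 2 * Real.log (Real.log (Real.log (Real.log Z))) /
    (Real.log (Real.log (Real.log Z))) ^ 2

/-- **Record prime gaps around the sums of three polynomials in disjoint sets of variables.** -/
theorem result {a b c : ℕ} (A : MvPolynomial (Fin a) ℤ) (B : MvPolynomial (Fin b) ℤ)
    (C : MvPolynomial (Fin c) ℤ) (hA : ∀ k : ℤ, A ≠ MvPolynomial.C k) (hB : ∀ k : ℤ, B ≠ MvPolynomial.C k)
    (hC : ∀ k : ℤ, C ≠ MvPolynomial.C k) :
    ∃ κ : ℝ, 0 < κ ∧ ∃ Z₀ : ℝ, ∀ Z : ℕ, Z₀ ≤ Z → ∀ (L : Fin a → ℤ) (M : Fin b → ℤ) (N : Fin c → ℤ),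
      ∃ (x : Fin a → ℤ) (y : Fin b → ℤ) (z : Fin c → ℤ),
        ((∀ i, L i < x i ∧ x i ≤ L i + Z) ∧ (∀ i, M i < y i ∧ y i ≤ M i + Z) ∧
          ∀ i, N i < z i ∧ z i ≤ N i + Z) ∧
        ∀ n : ℤ, |(n : ℝ) - ((eval x A : ℤ) + (eval y B : ℤ) + (eval z C : ℤ))| ≤ κ * f Z →
          ∃ p : ℕ, p.Prime ∧ (p : ℝ) ≤ (Z : ℝ) ^ (1 / 10 : ℝ) ∧ (p : ℤ) ∣ n :=
  Pool.Agent.Y837.SV.three_main A B C hA hB hC

end Pool.Agent.Results.MP_7b323f_nt.SumsOfThreePolynomials
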