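import Pool.Agent.Y829.RX4

set_option autoImplicit false

/-!
# Gaps beyond `(log X)^(1+ε)` need atypical residue classes

Author: helper829. All known large gaps between primes come from the method of Erdős, Rankin and Maynard: `n` is
restricted to one residue class `b` modulo the product `W` of (almost) all primes up to a multiple of `log X`, a
nonnegative sieve weight is put on this class, and the mean of `π(n + U) - π(n)` is compared with `1`. The method
needs a class `b` for which most of the `b + h`, `h ≤ U`, have a common factor with `W`. We prove that for all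
classes `b` modulo `W` but a proportion `exp(-(log X)^κ)` every sieve weight on the class of `b` sees the expected
number of primes in `(n, n + U]`, up to the factor `1 + ε`, for all `U ≥ (log X)^A`, where `A > 1` is arbitrary. (For
`A > 2` no class at all can be used, see `MP_028722_nt.WeightsOverTheRecordModulus`; the number of primes is only of
the right order of magnitude there.)

Proof. Integers free of primes up to the level: for `n` modulo all primes up to the level their number in
`(n, n + U]` is concentrated, with exceptions of proportion `exp(-(log X)^κ)`. By Markov's inequality and the theorem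
of Fubini most classes modulo `W` contain few exceptions; on such a class the exceptions have small mass with respect
to every weight which loses at most powers of `log X` (Cauchy-Schwarz inequality). The theorem of Bombieri and
Vinogradov relative to `W` of the starting files (`Pool.Agent.H378R2`, helper378) passes to the primes.
-/

open Finset

namespace Pool.Agent.Results.MP_7b323f_nt.TypicalResidueClasses

/-- the modulus `W`: the product of the primes `p ≤ (log X) / 1000` outside of `S` and different from `p₁` -/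
noncomputable def modulus (X : ℕ) (S : Finset ℕ) (p₁ : ℕ) : ℕ :=
  ∏ p ∈ (Icc 1 ⌊Real.log X / 1000⌋₊).filter (fun p => p.Prime ∧ p ∉ S ∧ p ≠ p₁), p

/-- the omitted primes: at most one prime `p₁`, larger than `Z` (`p₁ = 1` if there is none), and the primes of
`S`, which are larger than `(log log X)^3` and have `∑ 1 / q ≤ 6 / (log log X)^2` -/
def Few (Z X : ℕ) (S : Finset ℕ) (p₁ : ℕ) : Prop :=
  (p₁ = 1 ∨ (p₁.Prime ∧ Z < p₁)) ∧ (∀ q ∈ S, q.Prime ∧ Real.log (Real.log X) ^ 3 < q) ∧
    ∑ q ∈ S, (1 : ℝ) / q ≤ 6 / Real.log (Real.log X) ^ 2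

/-- the squarefree `q ≤ X^(1/100)` prime to `W p₁` -/
noncomputable def levels (X : ℕ) (S : Finset ℕ) (p₁ : ℕ) : Finset ℕ :=
  (Icc 1 ⌊(X : ℝ) ^ (1 / 100 : ℝ)⌋₊).filter (fun q => Squarefree q ∧ q.Coprime (modulus X S p₁ * p₁))

/-- the weight `∑_q c_q(n mod q)` on the residue class of `b` modulo `W` -/
noncomputable def weight (X : ℕ) (S : Finset ℕ) (p₁ b : ℕ) (c : ℕ → ℕ → ℝ) (n : ℕ) : ℝ :=
  if n % modulus X S p₁ = b then ∑ q ∈ levels X S p₁, c q (n % q) else 0

/-- the sum of the weight over `X < n ≤ 3X` -/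
noncomputable def mass (X : ℕ) (S : Finset ℕ) (p₁ b : ℕ) (c : ℕ → ℕ → ℝ) : ℝ :=
  ∑ n ∈ Ioc X (3 * X), weight X S p₁ b c n

/-- `w` is nonnegative, `∑_{a mod q} |c_q(a)| ≤ (τ(q) log X)^K`, and the mass is at least
`(X / W) / (log X)^K`. -/
def Good (K X : ℕ) (S : Finset ℕ) (p₁ b : ℕ) (c : ℕ → ℕ → ℝ) : Prop :=
  (∀ n, 0 ≤ weight X S p₁ b c n) ∧
    (∀ q ∈ levels X S p₁, ∑ a ∈ range q, |c q a| ≤ (q.divisors.card : ℝ) ^ K * Real.log X ^ K) ∧
    X / (modulus X S p₁ * Real.log X ^ K) ≤ mass X S p₁ b c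

/-- `π(n + U) - π(n)` -/
noncomputable def primesIn (U n : ℕ) : ℝ := (((Ioc n (n + U)).filter Nat.Prime).card : ℝ)

/-- the tent function of `log u`, supported on `[1, e]` -/
noncomputable def tent (u : ℝ) : ℝ := max 0 (1 / 2 - |Real.log u - 1 / 2|)

/-- `tent(m / X) log m` if `m` is prime, and `0` otherwise -/
noncomputable def logPrime (X m : ℕ) : ℝ := if m.Prime then tent (m / (X : ℝ)) * Real.log m else 0

/-- Let `A > 1` and `ε > 0`. There is `κ > 0` such that for all `K`, `Z` and large `X` there are a modulus `W` as above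
and a set `E` of at most `W exp(-(log X)^κ)` residue classes modulo `W` such that for all classes `b` outside of
`E`, all `(log X)^A ≤ U ≤ X^(9/10)` and all weights on the class of `b` as above: the number of primes in
`(n, n + U]`, counted with `tent(p / X) log p`, is on average with respect to the weight within `ε U` of `U`
(relative to the tent function), and the weighted mean of `π(n + U) - π(n)` is at least `U / (3200 log X)`. -/
theorem result (A : ℝ) (hA : 1 < A) (ε : ℝ) (hε : 0 < ε) : ∃ κ : ℝ, 0 < κ ∧ ∀ K Z : ℕ, ∃ X₀ : ℕ, ∀ X : ℕ, X₀ ≤ X →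
    ∃ (S : Finset ℕ) (p₁ : ℕ), Few Z X S p₁ ∧
    ∃ E : Finset ℕ, (E.card : ℝ) ≤ modulus X S p₁ * Real.exp (-Real.log X ^ κ) ∧
    ∀ b : ℕ, b < modulus X S p₁ → b ∉ E → ∀ (U : ℕ) (c : ℕ → ℕ → ℝ),
      Real.log X ^ A ≤ U → (U : ℝ) ≤ (X : ℝ) ^ (9 / 10 : ℝ) → Good K X S p₁ b c →
      |∑ n ∈ Icc 1 (3 * X), weight X S p₁ b c n * ∑ h ∈ Icc 1 U, logPrime X (n + h) -
          U * ∑ n ∈ Icc 1 (3 * X), weight X S p₁ b c n * tent (n / (X : ℝ))| ≤
          ε * (U * ∑ n ∈ Icc 1 (3 * X), weight X S p₁ b c n * tent (n / (X : ℝ))) ∧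
      1 / 3200 * (U / Real.log X) * mass X S p₁ b c ≤ ∑ n ∈ Ioc X (3 * X), weight X S p₁ b c n * primesIn U n := by
  have hfew : ∀ (Z X : ℕ) (S : Finset ℕ) (ps : ℕ), Pool.Agent.H378R2.GoodP Z ps →
      Pool.Agent.H378R2.GoodS X S → Few Z X S ps := by
    intro Z X S ps h1 h2
    refine ⟨h1, fun q hq => ?_, h2.2⟩
    obtain ⟨a1, a2, -⟩ := h2.1 q hq
    refine ⟨a1, ?_⟩
    unfold Pool.Agent.H378R2.z2 at a2
    exact (Nat.le_ceil _).trans_lt (by exact_mod_cast a2)
  obtain ⟨e, he⟩ := exists_pow_lt_of_lt_one hε (show (1 / 2 : ℝ) < 1 by norm_num)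
  obtain ⟨κ, hκ, h⟩ := Pool.Agent.Y829.RX.typical A hA e
  refine ⟨κ, hκ, fun K Z => ?_⟩
  obtain ⟨X₀, h1⟩ := h K Z
  refine ⟨X₀, fun X hX => ?_⟩
  obtain ⟨ps, S, g1, g2, E, -, hE, h2⟩ := h1 X hX
  refine ⟨S, ps, hfew Z X S ps g1 g2, E, ?_, ?_⟩
  · rw [Real.exp_neg, ← div_eq_mul_inv, le_div_iff₀ (Real.exp_pos _)]
    exact hE
  · intro b hb hbE U c hU hUX hg
    obtain ⟨k1, k2, k3⟩ := hg
    have h3 := h2 b hb hbE U hU hUX c (fun n hn => by
      have h4 := k1 n
      unfold weight at h4
      rw [if_pos (show n % modulus X S ps = b from hn)] at h4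
      exact h4) k2 k3
    obtain ⟨f1, f2⟩ := h3
    refine ⟨?_, ?_⟩
    · have hnn : 0 ≤ (U : ℝ) * ∑ n ∈ Icc 1 (3 * X), weight X S ps b c n * tent (n / (X : ℝ)) := by
        apply mul_nonneg (Nat.cast_nonneg _)
        apply sum_nonneg
        intro n _
        exact mul_nonneg (k1 n) (le_max_left _ _)
      exact (le_trans f1 (mul_le_mul_of_nonneg_right he.le hnn))
    · rw [mul_assoc]
      exact f2

end Pool.Agent.Results.MP_7b323f_nt.TypicalResidueClasses
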